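import Mathlib
import Pool.Agent.helper16.Multibrot.Defs
import Pool.Agent.helper16.Multibrot.Main

/-!
# EL project, module M3: change of variables `c = ω ^ j exp ((ζ - log n) / (n - 1))`
-/

set_option autoImplicit false

open Metric Set Filter Complex MeasureTheory Topology

namespace Pool.Agent.helper48.EL

open Pool.Agent.helper16.Multibrot

/-- the parameters in logarithmic coordinate -/
def logBad (n : ℕ) : Set ℂ :=
  {ζ | ∃ c : ℂ, (n : ℂ) * c ^ (n - 1) = Complex.exp ζ ∧ c ∈ multibrot n \ hyperbolic n}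

/-- determinant of a complex multiplication, as a real linear map. -/
lemma M3_det (a : ℂ) :
    ((ContinuousLinearMap.toSpanSingleton ℂ a).restrictScalars ℝ : ℂ →L[ℝ] ℂ).det = ‖a‖ ^ 2 := by
  have h : (((ContinuousLinearMap.toSpanSingleton ℂ a).restrictScalars ℝ : ℂ →L[ℝ] ℂ) :
      ℂ →ₗ[ℝ] ℂ) = Algebra.lmul ℝ ℂ a := by
    ext; simp [mul_comm]
  rw [ContinuousLinearMap.det, h, ← Algebra.norm_apply, Algebra.norm_complex_apply,
    Complex.normSq_eq_norm_sq]

/-- The area of the image under one branch. -/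
lemma M3_branch {n N : ℕ} (hN : 1 ≤ N) (hn : 1 ≤ n) (w : ℂ) (hw : ‖w‖ = 1) {S : Set ℂ}
    (hS : MeasurableSet S) (hSn : ∀ ζ ∈ S, ζ.re ≤ Real.log n) :
    volume ((fun ζ : ℂ => w * Complex.exp ((ζ - (Real.log n : ℂ)) / N)) '' S) ≤
      ENNReal.ofReal (1 / (N : ℝ) ^ 2) * volume S := by
  have hN0 : (0 : ℝ) < N := by exact_mod_cast hN
  have hNC : (N : ℂ) ≠ 0 := by exact_mod_cast hN0.ne'
  have hder : ∀ ζ ∈ S, HasFDerivWithinAt
      (fun ζ : ℂ => w * Complex.exp ((ζ - (Real.log n : ℂ)) / N))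
      ((ContinuousLinearMap.toSpanSingleton ℂ
        (w * (Complex.exp ((ζ - (Real.log n : ℂ)) / N) * (1 / N)))).restrictScalars ℝ :
        ℂ →L[ℝ] ℂ) S ζ := by
    intro ζ _
    have h1 : HasDerivAt (fun ζ : ℂ => w * Complex.exp ((ζ - (Real.log n : ℂ)) / N))
        (w * (Complex.exp ((ζ - (Real.log n : ℂ)) / N) * (1 / N))) ζ :=
      ((((hasDerivAt_id ζ).sub_const _).div_const _).cexp).const_mul w
    exact (h1.hasFDerivAt.restrictScalars ℝ).hasFDerivWithinAt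
  refine (addHaar_image_le_lintegral_abs_det_fderiv volume hS hder).trans ?_
  have hb : ∀ ζ ∈ S, ENNReal.ofReal |((ContinuousLinearMap.toSpanSingleton ℂ
        (w * (Complex.exp ((ζ - (Real.log n : ℂ)) / N) * (1 / N)))).restrictScalars ℝ :
        ℂ →L[ℝ] ℂ).det| ≤ ENNReal.ofReal (1 / (N : ℝ) ^ 2) := by
    intro ζ hζ
    apply ENNReal.ofReal_le_ofReal
    rw [M3_det, abs_of_nonneg (by positivity), norm_mul, norm_mul, hw, one_mul, Complex.norm_exp,
      norm_div, norm_one, Complex.norm_natCast]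
    have hre : ((ζ - (Real.log n : ℂ)) / N).re ≤ 0 := by
      have : ((ζ - (Real.log n : ℂ)) / N).re = (ζ.re - Real.log n) / N := by
        rw [← Complex.ofReal_natCast, Complex.div_ofReal_re, Complex.sub_re, Complex.ofReal_re]
      rw [this]
      exact div_nonpos_of_nonpos_of_nonneg (by linarith [hSn ζ hζ]) hN0.le
    have he : Real.exp ((ζ - (Real.log n : ℂ)) / N).re ≤ 1 := Real.exp_le_one_iff.mpr hre
    rw [mul_pow, one_div, one_div, inv_pow]
    have := pow_le_one₀ (n := 2) (Real.exp_pos _).le he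
    exact mul_le_of_le_one_left (by positivity) this
  calc _ ≤ ∫⁻ _ in S, ENNReal.ofReal (1 / (N : ℝ) ^ 2) := setLIntegral_mono' hS hb
    _ = _ := by rw [setLIntegral_const]

lemma M3_cover {n : ℕ} (hn : 3 ≤ n) {Y : ℝ} (hY : 1 ≤ Y) {c : ℂ}
    (hc : c ∈ (multibrot n \ hyperbolic n) ∩ annulus (n - 1) (1 / (8 * (n : ℝ))) (Y / n)) :
    ∃ j : ℕ, j < n - 1 ∧ ∃ ζ ∈ logBad n ∩ {ζ : ℂ | (-3 ≤ ζ.re ∧ ζ.re ≤ Real.log Y) ∧
          (0 ≤ ζ.im ∧ ζ.im ≤ 2 * Real.pi)},
      Complex.exp (2 * Real.pi * I / (n - 1 : ℕ)) ^ j *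
        Complex.exp ((ζ - (Real.log n : ℂ)) / (n - 1 : ℕ)) = c := by
  obtain ⟨hcM, hc1, hc2⟩ := hc
  set N := n - 1 with hNdef
  have hN : 2 ≤ N := by omega
  have hn0 : (0 : ℝ) < n := by exact_mod_cast (by omega : 0 < n)
  have hnC : (n : ℂ) ≠ 0 := by exact_mod_cast hn0.ne'
  have hN0 : (0 : ℝ) < N := by exact_mod_cast (by omega : 0 < N)
  have hNC : (N : ℂ) ≠ 0 := by exact_mod_cast hN0.ne'
  have hcpos : 0 < ‖c‖ ^ N := lt_trans (by positivity) hc1
  have hc0 : c ≠ 0 := by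
    rintro rfl
    rw [norm_zero, zero_pow (by omega)] at hcpos
    exact lt_irrefl _ hcpos
  set u : ℂ := (n : ℂ) * c ^ N with hu
  have hu0 : u ≠ 0 := mul_ne_zero hnC (pow_ne_zero _ hc0)
  have hunorm : ‖u‖ = n * ‖c‖ ^ N := by rw [hu, norm_mul, norm_pow, Complex.norm_natCast]
  -- the logarithm with argument in [0, 2π]
  obtain ⟨ζ, hζ, hζre, hζ0, hζ1⟩ : ∃ ζ : ℂ, Complex.exp ζ = u ∧ ζ.re = Real.log ‖u‖ ∧
      0 ≤ ζ.im ∧ ζ.im ≤ 2 * Real.pi := by
    by_cases h : 0 ≤ Complex.arg u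
    · refine ⟨Complex.log u, Complex.exp_log hu0, Complex.log_re u, ?_, ?_⟩
      · rw [Complex.log_im]; exact h
      · rw [Complex.log_im]; linarith [Complex.arg_le_pi u, Real.pi_pos]
    · refine ⟨Complex.log u + 2 * Real.pi * I, ?_, ?_, ?_, ?_⟩
      · rw [Complex.exp_add, Complex.exp_log hu0, Complex.exp_two_pi_mul_I, mul_one]
      · simp [Complex.log_re]
      · have : (Complex.log u + 2 * Real.pi * I).im = Complex.arg u + 2 * Real.pi := by
          simp [Complex.log_im]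
        rw [this]; linarith [Complex.neg_pi_lt_arg u, Real.pi_pos]
      · have : (Complex.log u + 2 * Real.pi * I).im = Complex.arg u + 2 * Real.pi := by
          simp [Complex.log_im]
        rw [this]; linarith
  have hlog : Complex.exp (Real.log n : ℂ) = n := by
    rw [← Complex.ofReal_exp, Real.exp_log hn0, Complex.ofReal_natCast]
  -- c ^ N = (exp ((ζ - log n) / N)) ^ N
  set v : ℂ := Complex.exp ((ζ - (Real.log n : ℂ)) / N) with hv
  have hv0 : v ≠ 0 := Complex.exp_ne_zero _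
  have hvN : v ^ N = c ^ N := by
    rw [hv, ← Complex.exp_nat_mul, mul_div_cancel₀ _ hNC, Complex.exp_sub, hζ, hlog, hu,
      mul_div_cancel_left₀ _ hnC]
  have hroot : (c / v) ^ N = 1 := by
    rw [div_pow, hvN, div_self (pow_ne_zero _ hc0)]
  have hprim := Complex.isPrimitiveRoot_exp N (by omega)
  have : NeZero N := ⟨by omega⟩
  obtain ⟨j, hj, hj2⟩ := hprim.eq_pow_of_pow_eq_one hroot
  refine ⟨j, hj, ζ, ⟨⟨c, by rw [hζ], hcM⟩, ⟨⟨?_, ?_⟩, hζ0, hζ1⟩⟩, ?_⟩
  · rw [hζre, hunorm]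
    have h8 : (1 / 8 : ℝ) ≤ n * ‖c‖ ^ N := by
      have := mul_le_mul_of_nonneg_left hc1.le hn0.le
      have e : (n : ℝ) * (1 / (8 * (n : ℝ))) = 1 / 8 := by field_simp
      linarith
    have h9 : Real.log (1 / 8) ≤ Real.log (n * ‖c‖ ^ N) := Real.log_le_log (by norm_num) h8
    have h10 : -3 ≤ Real.log (1 / 8) := by
      rw [Real.le_log_iff_exp_le (by norm_num)]
      have h3 : (8 : ℝ) ≤ Real.exp 3 := by
        have := Real.exp_one_gt_d9
        have e : Real.exp 3 = Real.exp 1 ^ 3 := by rw [← Real.exp_nat_mul]; norm_num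
        rw [e]
        calc (8 : ℝ) = 2 ^ 3 := by norm_num
          _ ≤ Real.exp 1 ^ 3 := pow_le_pow_left₀ (by norm_num) (by linarith) 3
      rw [Real.exp_neg, ← one_div]
      exact one_div_le_one_div_of_le (by norm_num) h3
    linarith
  · rw [hζre, hunorm]
    apply Real.log_le_log (by positivity)
    have := mul_le_mul_of_nonneg_left hc2 hn0.le
    have e : (n : ℝ) * (Y / n) = Y := by field_simp
    linarith
  · have : Complex.exp (2 * Real.pi * I / N) ^ j = c / v := hj2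
    rw [this, div_mul_cancel₀ _ hv0]

/-- el:M3. Change of variables `c = ω ^ j exp ((ζ - log n) / (n - 1))`, `j < n - 1`,
`ω = exp (2 π i / (n - 1))`; the derivative has norm `‖c‖ / (n - 1) ≤ 1 / (n - 1)`. -/
theorem volume_annulus_bad_le {n : ℕ} (hn : 3 ≤ n) {Y : ℝ} (hY : 1 ≤ Y) (hYn : Y ≤ n) :
    volume ((multibrot n \ hyperbolic n) ∩ annulus (n - 1) (1 / (8 * (n : ℝ))) (Y / n)) ≤
      ENNReal.ofReal (1 / ((n : ℝ) - 1)) *
        volume (logBad n ∩ {ζ : ℂ | (-3 ≤ ζ.re ∧ ζ.re ≤ Real.log Y) ∧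
          (0 ≤ ζ.im ∧ ζ.im ≤ 2 * Real.pi)}) := by
  set T : Set ℂ := logBad n ∩ {ζ : ℂ | (-3 ≤ ζ.re ∧ ζ.re ≤ Real.log Y) ∧
          (0 ≤ ζ.im ∧ ζ.im ≤ 2 * Real.pi)} with hT
  set S : Set ℂ := toMeasurable volume T ∩ {ζ : ℂ | ζ.re ≤ Real.log n} with hSdef
  have hSmeas : MeasurableSet S :=
    (measurableSet_toMeasurable _ _).inter
      (measurableSet_le Complex.measurable_re measurable_const)
  have hTS : T ⊆ S := by
    intro ζ hζ
    refine ⟨subset_toMeasurable _ _ hζ, ?_⟩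
    have h1 : ζ.re ≤ Real.log Y := hζ.2.1.2
    exact h1.trans (Real.log_le_log (by linarith) hYn)
  have hSvol : volume S ≤ volume T :=
    (measure_mono inter_subset_left).trans (measure_toMeasurable T).le
  have hω : ∀ j : ℕ, ‖Complex.exp (2 * Real.pi * I / (n - 1 : ℕ)) ^ j‖ = 1 := by
    intro j
    have e : (2 * Real.pi * I / (n - 1 : ℕ) : ℂ) = ((2 * Real.pi / (n - 1 : ℕ) : ℝ) : ℂ) * I := by
      push_cast; ring
    rw [norm_pow, e, Complex.norm_exp_ofReal_mul_I, one_pow]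
  have hcov : (multibrot n \ hyperbolic n) ∩ annulus (n - 1) (1 / (8 * (n : ℝ))) (Y / n) ⊆
      ⋃ j ∈ Finset.range (n - 1), (fun ζ : ℂ => Complex.exp (2 * Real.pi * I / (n - 1 : ℕ)) ^ j *
        Complex.exp ((ζ - (Real.log n : ℂ)) / (n - 1 : ℕ))) '' S := by
    intro c hc
    obtain ⟨j, hj, ζ, hζ, he⟩ := M3_cover hn hY hc
    simp only [mem_iUnion, Finset.mem_range, exists_prop]
    exact ⟨j, hj, ζ, hTS hζ, he⟩
  have hN0 : (0 : ℝ) < (n - 1 : ℕ) := by exact_mod_cast (by omega : 0 < n - 1)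
  have hcast : ((n : ℝ) - 1) = ((n - 1 : ℕ) : ℝ) := by
    rw [Nat.cast_sub (by omega)]; simp
  calc volume ((multibrot n \ hyperbolic n) ∩ annulus (n - 1) (1 / (8 * (n : ℝ))) (Y / n))
      ≤ volume (⋃ j ∈ Finset.range (n - 1),
        (fun ζ : ℂ => Complex.exp (2 * Real.pi * I / (n - 1 : ℕ)) ^ j *
        Complex.exp ((ζ - (Real.log n : ℂ)) / (n - 1 : ℕ))) '' S) := measure_mono hcov
    _ ≤ ∑ j ∈ Finset.range (n - 1), volume
        ((fun ζ : ℂ => Complex.exp (2 * Real.pi * I / (n - 1 : ℕ)) ^ j *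
        Complex.exp ((ζ - (Real.log n : ℂ)) / (n - 1 : ℕ))) '' S) := measure_biUnion_finset_le _ _
    _ ≤ ∑ j ∈ Finset.range (n - 1), ENNReal.ofReal (1 / ((n - 1 : ℕ) : ℝ) ^ 2) * volume S :=
        Finset.sum_le_sum fun j _ => M3_branch (by omega) (by omega) _ (hω j) hSmeas
          (fun ζ hζ => hζ.2)
    _ = ((n - 1 : ℕ) : ENNReal) * (ENNReal.ofReal (1 / ((n - 1 : ℕ) : ℝ) ^ 2) * volume S) := by
        rw [Finset.sum_const, Finset.card_range, nsmul_eq_mul]
    _ = ENNReal.ofReal (1 / ((n : ℝ) - 1)) * volume S := by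
        rw [← mul_assoc]
        congr 1
        rw [← ENNReal.ofReal_natCast, ← ENNReal.ofReal_mul hN0.le, hcast]
        congr 1
        field_simp
    _ ≤ ENNReal.ofReal (1 / ((n : ℝ) - 1)) * volume T := by gcongr

end Pool.Agent.helper48.EL
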